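import Pool.Agent.Y405.LE.Frame

set_option autoImplicit false

/-!
# Lattices with vectors of norm 8 (CASEA)
-/

namespace Pool.Agent.Y405.LE

open Pool.Agent.Y813.RL (bf bf_add_left bf_add_right bf_sub_left bf_sub_right bf_smul_left
  bf_smul_right bf_neg_left bf_neg_right bf_zero_left bf_zero_right bf_comm bf_intCast)
open Pool.Agent.Y813.LE
open Matrix Finset

theorem bf_eq {n : Type*} [Fintype n] {R : Type*} [CommRing R] (B : Matrix n n ℤ) (x y : n → R) :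
    bf B x y = x ⬝ᵥ (B.map (Int.cast : ℤ → R)) *ᵥ y := by
  simp only [bf, dotProduct, mulVec, Matrix.map_apply, mul_sum, mul_assoc]

theorem bf_eqZ {n : Type*} [Fintype n] (B : Matrix n n ℤ) (x y : n → ℤ) :
    bf B x y = x ⬝ᵥ B *ᵥ y := by
  rw [bf_eq]
  congr 2

theorem bf_singleZ {n : Type*} [Fintype n] [DecidableEq n] (B : Matrix n n ℤ) (i j : n) :
    bf B (Pi.single i 1) (Pi.single j 1) = B i j := by
  rw [bf_eqZ]
  simp

section

variable {r : ℕ} {G : Matrix (Fin r) (Fin r) ℤ} {w : Fin r → Fin r → ℤ}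

/-- the matrix identity -/
theorem mat1 (hw : ∀ i j, bf G (w i) (w j) = if i = j then 8 else 0) :
    (Matrix.of w) * (G * (Matrix.of w)ᵀ) = (8 : ℤ) • (1 : Matrix (Fin r) (Fin r) ℤ) := by
  ext i j
  have h := hw i j
  rw [bf_eqZ] at h
  simp only [Matrix.mul_apply, Matrix.smul_apply, Matrix.one_apply, Matrix.transpose_apply,
    Matrix.of_apply, smul_eq_mul, mul_ite, mul_one, mul_zero]
  rw [← h]
  simp only [dotProduct, mulVec]

/-- the other order -/
theorem mat2 (hw : ∀ i j, bf G (w i) (w j) = if i = j then 8 else 0) :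
    (G * (Matrix.of w)ᵀ) * (Matrix.of w) = (8 : ℤ) • (1 : Matrix (Fin r) (Fin r) ℤ) := by
  have h1 := mat1 hw
  have hinj : Function.Injective (fun M : Matrix (Fin r) (Fin r) ℤ => M.map (Int.cast : ℤ → ℚ)) :=
    Matrix.map_injective Int.cast_injective
  have hmul : ∀ M N : Matrix (Fin r) (Fin r) ℤ, (M * N).map (Int.cast : ℤ → ℚ) =
      M.map (Int.cast : ℤ → ℚ) * N.map (Int.cast : ℤ → ℚ) := by
    intro M N
    exact Matrix.map_mul (f := Int.castRingHom ℚ)
  have h8 : ((8 : ℤ) • (1 : Matrix (Fin r) (Fin r) ℤ)).map (Int.cast : ℤ → ℚ) =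
      (8 : ℚ) • (1 : Matrix (Fin r) (Fin r) ℚ) := by
    ext i j
    simp only [Matrix.map_apply, Matrix.smul_apply, Matrix.one_apply, smul_eq_mul]
    split_ifs <;> simp
  have h2 : (Matrix.of w).map (Int.cast : ℤ → ℚ) * ((1 / 8 : ℚ) •
      (G * (Matrix.of w)ᵀ).map (Int.cast : ℤ → ℚ)) = 1 := by
    rw [Matrix.mul_smul, ← hmul, h1, h8, smul_smul]
    norm_num
  have h3 := mul_eq_one_comm.1 h2
  apply hinj
  show (G * (Matrix.of w)ᵀ * Matrix.of w).map (Int.cast : ℤ → ℚ) =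
    ((8 : ℤ) • (1 : Matrix (Fin r) (Fin r) ℤ)).map (Int.cast : ℤ → ℚ)
  rw [hmul, h8]
  rw [Matrix.smul_mul] at h3
  rw [← h3, smul_smul]
  norm_num

theorem map_mulZ {R : Type*} [CommRing R] (M N : Matrix (Fin r) (Fin r) ℤ) :
    (M * N).map (Int.cast : ℤ → R) =
      M.map (Int.cast : ℤ → R) * N.map (Int.cast : ℤ → R) :=
  Matrix.map_mul (f := Int.castRingHom R)

/-- the orthogonal expansion -/
theorem expand {R : Type*} [CommRing R] (hG : G.IsSymm)
    (hw : ∀ i j, bf G (w i) (w j) = if i = j then 8 else 0) (x y : Fin r → R) :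
    8 * bf G x y = ∑ i, bf G x (fun j => (w i j : R)) * bf G y (fun j => (w i j : R)) := by
  have h1 : ∀ i, bf G x (fun j => (w i j : R)) =
      (x ᵥ* ((G * (Matrix.of w)ᵀ).map (Int.cast : ℤ → R))) i := by
    intro i
    rw [bf_eq, map_mulZ]
    simp only [Matrix.vecMul, dotProduct, mulVec, Matrix.map_apply, Matrix.transpose_apply,
      Matrix.of_apply, Matrix.mul_apply]
  have h2 : ∀ i, bf G y (fun j => (w i j : R)) =
      (((Matrix.of w * G).map (Int.cast : ℤ → R)) *ᵥ y) i := by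
    intro i
    rw [bf_comm hG, bf_eq, map_mulZ, ← Matrix.mulVec_mulVec]
    rfl
  simp_rw [h1, h2]
  change _ = (x ᵥ* ((G * (Matrix.of w)ᵀ).map (Int.cast : ℤ → R))) ⬝ᵥ
    (((Matrix.of w * G).map (Int.cast : ℤ → R)) *ᵥ y)
  rw [← Matrix.dotProduct_mulVec, Matrix.mulVec_mulVec, ← map_mulZ, ← Matrix.mul_assoc, mat2 hw,
    Matrix.smul_mul, Matrix.one_mul, bf_eq]
  have h3 : ((8 : ℤ) • G).map (Int.cast : ℤ → R) = (8 : R) • G.map (Int.cast : ℤ → R) := by
    ext i j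
    simp only [Matrix.map_apply, Matrix.smul_apply, smul_eq_mul]
    push_cast
    rfl
  rw [h3, Matrix.smul_mulVec, dotProduct_smul, smul_eq_mul]

/-- the coordinates with respect to the frame -/
def amap (G : Matrix (Fin r) (Fin r) ℤ) (w : Fin r → Fin r → ℤ) :
    (Fin r → ℤ) →+ (Fin r → ℤ) where
  toFun v i := bf G v (w i)
  map_zero' := by
    funext i
    exact bf_zero_left _ _
  map_add' x y := by
    funext i
    exact bf_add_left _ _ _ _

theorem amap_inner (hG : G.IsSymm)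
    (hw : ∀ i j, bf G (w i) (w j) = if i = j then 8 else 0) (x y : Fin r → ℤ) :
    ∑ i, amap G w x i * amap G w y i = 8 * bf G x y := by
  rw [expand hG hw]
  rfl

theorem amap_single (hw : ∀ i j, bf G (w i) (w j) = if i = j then 8 else 0) (i : Fin r) :
    amap G w (w i) = Pi.single i 8 := by
  funext k
  show bf G (w i) (w k) = _
  rw [hw, Pi.single_apply]
  by_cases h : i = k
  · simp [h]
  · rw [if_neg h, if_neg (fun e => h e.symm)]

theorem amap_half (hw : ∀ i j, bf G (w i) (w j) = if i = j then 8 else 0) {i j : Fin r}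
    {s : Fin r → ℤ} (hs : w i = w j + 2 • s) :
    amap G w s = Pi.single i 4 - Pi.single j 4 := by
  have h1 := amap_single hw i
  rw [hs, map_add, two_smul, map_add, amap_single hw j] at h1
  funext k
  have h2 := congrFun h1 k
  simp only [Pi.add_apply, Pi.single_apply, Pi.sub_apply] at h2 ⊢
  split_ifs at h2 ⊢ <;> omega

theorem cov_int (hG : G.IsSymm)
    (hw : ∀ i j, bf G (w i) (w j) = if i = j then 8 else 0) (hC : Cov G) (x : Fin r → ℤ) :
    ∃ v : Fin r → ℤ, ∑ i, (x i - amap G w v i) ^ 2 ≤ 16 := by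
  obtain ⟨v, hv⟩ := hC (∑ i, ((x i : ℝ) / 8) • (fun j => (w i j : ℝ)))
  refine ⟨v, ?_⟩
  unfold sd at hv
  have h1 := expand (R := ℝ) hG hw
    (fun i => (∑ i, ((x i : ℝ) / 8) • (fun j => (w i j : ℝ))) i - (v i : ℝ))
    (fun i => (∑ i, ((x i : ℝ) / 8) • (fun j => (w i j : ℝ))) i - (v i : ℝ))
  have h2 : ∀ k, bf G (fun i => (∑ i, ((x i : ℝ) / 8) • (fun j => (w i j : ℝ))) i - (v i : ℝ))
      (fun j => (w k j : ℝ)) = ((x k - amap G w v k : ℤ) : ℝ) := by
    intro k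
    have e : (fun i => (∑ i, ((x i : ℝ) / 8) • (fun j => (w i j : ℝ))) i - (v i : ℝ)) =
        (∑ i, ((x i : ℝ) / 8) • (fun j => (w i j : ℝ))) - (fun i => (v i : ℝ)) := rfl
    rw [e, bf_sub_left]
    have h3 : bf G (∑ i, ((x i : ℝ) / 8) • (fun j => (w i j : ℝ))) (fun j => (w k j : ℝ)) =
        ∑ i, ((x i : ℝ) / 8) * bf G (fun j => (w i j : ℝ)) (fun j => (w k j : ℝ)) := by
      let f : (Fin r → ℝ) →+ ℝ :=
        { toFun := fun z => bf G z (fun j => (w k j : ℝ))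
          map_zero' := bf_zero_left _ _
          map_add' := fun a b => bf_add_left _ _ _ _ }
      have := map_sum f (fun i => ((x i : ℝ) / 8) • (fun j => (w i j : ℝ))) univ
      refine this.trans ?_
      refine sum_congr rfl fun i _ => ?_
      exact bf_smul_left G ((x i : ℝ) / 8) (fun j => (w i j : ℝ)) (fun j => (w k j : ℝ))
    rw [h3]
    simp_rw [bf_intCast, hw]
    push_cast
    simp only [mul_ite, mul_zero, sum_ite_eq', mem_univ, if_true]
    rw [show ((amap G w v k : ℤ) : ℝ) = ((bf G v (w k) : ℤ) : ℝ) from rfl]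
    ring
  simp_rw [h2] at h1
  have h4 : ((∑ i, (x i - amap G w v i) ^ 2 : ℤ) : ℝ) ≤ 16 := by
    push_cast
    push_cast at h1
    have : ∑ i, ((x i : ℝ) - (amap G w v i : ℝ)) ^ 2 =
        ∑ i, ((x i : ℝ) - (amap G w v i : ℝ)) * ((x i : ℝ) - (amap G w v i : ℝ)) :=
      sum_congr rfl fun i _ => by ring
    rw [this, ← h1]
    linarith
  exact_mod_cast h4

end

/-- the coordinates of a point of `T8` -/
theorem t8_coord {x : Fin 8 → ℤ} (hx : T8 x) : ∃ c : Fin 8 → ℤ,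
    x 0 = 4 * c 0 + 4 * c 1 + 2 * c 7 ∧ x 1 = 4 * c 0 - 4 * c 1 + 4 * c 2 + 2 * c 7 ∧
    x 2 = 4 * c 3 - 4 * c 2 + 2 * c 7 ∧ x 3 = 4 * c 4 - 4 * c 3 + 2 * c 7 ∧
    x 4 = 4 * c 5 - 4 * c 4 + 2 * c 7 ∧ x 5 = 4 * c 6 - 4 * c 5 + 2 * c 7 ∧
    x 6 = - 4 * c 6 + 2 * c 7 ∧ x 7 = 2 * c 7 := by
  obtain ⟨h1, h2⟩ := hx
  have h3 : ∃ y : Fin 8 → ℤ, ∀ i, x i = 4 * y i + x 7 := by
    have : ∀ i, 4 ∣ x i - x 7 := by
      intro i
      rcases h1 with h1 | h1
      · have := h1 i; have := h1 7; omega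
      · have := h1 i; have := h1 7; omega
    choose y hy using this
    exact ⟨y, fun i => by have := hy i; omega⟩
  obtain ⟨y, hy⟩ := h3
  have h7 : ∃ c, x 7 = 2 * c := by
    rcases h1 with h1 | h1
    · have := h1 7; exact ⟨x 7 / 2, by omega⟩
    · have := h1 7; exact ⟨x 7 / 2, by omega⟩
  obtain ⟨c, hc⟩ := h7
  rw [Fin.sum_univ_eight] at h2
  have y0 := hy 0
  have y1 := hy 1
  have y2 := hy 2
  have y3 := hy 3
  have y4 := hy 4
  have y5 := hy 5
  have y6 := hy 6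
  have h8 : ∃ z, y 0 + y 1 + y 2 + y 3 + y 4 + y 5 + y 6 = 2 * z :=
    ⟨(y 0 + y 1 + y 2 + y 3 + y 4 + y 5 + y 6) / 2, by omega⟩
  obtain ⟨z, hz⟩ := h8
  refine ⟨![z, y 0 - z, -(y 2 + y 3 + y 4 + y 5 + y 6), -(y 3 + y 4 + y 5 + y 6),
    -(y 4 + y 5 + y 6), -(y 5 + y 6), -(y 6), c], ?_, ?_, ?_, ?_, ?_, ?_, ?_, ?_⟩ <;>
  simp <;> omega

/-- the product in these coordinates -/
theorem t8_inner {x x' c c' : Fin 8 → ℤ}
    (h : x 0 = 4 * c 0 + 4 * c 1 + 2 * c 7 ∧ x 1 = 4 * c 0 - 4 * c 1 + 4 * c 2 + 2 * c 7 ∧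
    x 2 = 4 * c 3 - 4 * c 2 + 2 * c 7 ∧ x 3 = 4 * c 4 - 4 * c 3 + 2 * c 7 ∧
    x 4 = 4 * c 5 - 4 * c 4 + 2 * c 7 ∧ x 5 = 4 * c 6 - 4 * c 5 + 2 * c 7 ∧
    x 6 = - 4 * c 6 + 2 * c 7 ∧ x 7 = 2 * c 7)
    (h' : x' 0 = 4 * c' 0 + 4 * c' 1 + 2 * c' 7 ∧
    x' 1 = 4 * c' 0 - 4 * c' 1 + 4 * c' 2 + 2 * c' 7 ∧
    x' 2 = 4 * c' 3 - 4 * c' 2 + 2 * c' 7 ∧ x' 3 = 4 * c' 4 - 4 * c' 3 + 2 * c' 7 ∧
    x' 4 = 4 * c' 5 - 4 * c' 4 + 2 * c' 7 ∧ x' 5 = 4 * c' 6 - 4 * c' 5 + 2 * c' 7 ∧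
    x' 6 = - 4 * c' 6 + 2 * c' 7 ∧ x' 7 = 2 * c' 7) :
    ∑ i, x i * x' i = 8 * bf e82 c c' := by
  obtain ⟨h0, h1, h2, h3, h4, h5, h6, h7⟩ := h
  obtain ⟨k0, k1, k2, k3, k4, k5, k6, k7⟩ := h'
  simp only [bf, Fin.sum_univ_eight, h0, h1, h2, h3, h4, h5, h6, h7, k0, k1, k2, k3, k4, k5, k6,
    k7, e82]
  simp
  ring

/-- norm preserving homomorphisms preserve the product -/
theorem polar {r : ℕ} {ψ : (Fin r → ℤ) →+ (Fin 8 → ℤ)}
    (h : ∀ a, ∑ i, ψ a i ^ 2 = ∑ i, a i ^ 2) (a b : Fin r → ℤ) :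
    ∑ i, ψ a i * ψ b i = ∑ i, a i * b i := by
  have h1 := h (a + b)
  have h2 := h a
  have h3 := h b
  simp only [map_add, Pi.add_apply, add_sq, sum_add_distrib] at h1
  rw [h2, h3] at h1
  have h4 : ∑ i, 2 * ψ a i * ψ b i = ∑ i, 2 * a i * b i := by linarith
  simp only [mul_assoc, ← mul_sum] at h4
  linarith

section

variable {r : ℕ} {G : Matrix (Fin r) (Fin r) ℤ} {w : Fin r → Fin r → ℤ}

theorem first_case (hG : G.IsSymm)
    (hw : ∀ i j, bf G (w i) (w j) = if i = j then 8 else 0)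
    (ψ : (Fin r → ℤ) →+ (Fin 8 → ℤ)) (h1 : ∀ a, ∑ i, ψ a i ^ 2 = ∑ i, a i ^ 2)
    (h2 : ∀ v, T8 (ψ (amap G w v))) :
    ∃ P : Matrix (Fin 8) (Fin r) ℤ, P.transpose * e82 * P = G := by
  have h3 : ∀ j : Fin r, T8 (ψ (amap G w (Pi.single j 1))) := fun j => h2 _
  choose c hc using fun j => t8_coord (h3 j)
  refine ⟨Matrix.of fun k j => c j k, ?_⟩
  ext i j
  have h4 := t8_inner (hc i) (hc j)
  rw [polar h1, amap_inner hG hw, bf_singleZ] at h4
  have h5 : bf e82 (c i) (c j) = G i j := by linarith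
  rw [← h5, bf_eqZ, Matrix.mul_assoc, Matrix.mul_apply]
  simp only [dotProduct, mulVec, Matrix.mul_apply, Matrix.transpose_apply, Matrix.of_apply]

theorem second_case (hG : PosD G)
    (hw : ∀ i j, bf G (w i) (w j) = if i = j then 8 else 0)
    (hp : ∀ i j, ∃ s : Fin r → ℤ, w i = w j + 2 • s)
    (h : ∀ y : Fin r → ℤ, (∀ i j, 2 ∣ y i - y j) →
      (∀ v, 8 ∣ ∑ i, y i * amap G w v i) → ∃ v, amap G w v = y) : G.det = 1 := by
  have h1 : ∀ k : Fin r, ∃ v : Fin r → ℤ, amap G w v = fun i => w i k := by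
    intro k
    apply h
    · intro i j
      obtain ⟨s, hs⟩ := hp i j
      refine ⟨s k, ?_⟩
      have := congrFun hs k
      simp only [Pi.add_apply, two_smul] at this
      show w i k - w j k = _
      rw [this]
      ring
    · intro v
      refine ⟨v k, ?_⟩
      have h3 : ∀ l, ∑ i, (∑ m, G l m * w i m) * w i k = if l = k then 8 else 0 := by
        intro l
        have h4 := congrFun (congrFun (mat2 hw) l) k
        simp only [Matrix.mul_apply, Matrix.smul_apply, Matrix.one_apply,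
          Matrix.transpose_apply, Matrix.of_apply, smul_eq_mul, mul_ite, mul_one,
          mul_zero] at h4
        exact h4
      calc ∑ i, w i k * amap G w v i
          = ∑ i, ∑ l, v l * ((∑ m, G l m * w i m) * w i k) := by
            refine sum_congr rfl fun i _ => ?_
            show w i k * bf G v (w i) = _
            simp only [bf, mul_sum, sum_mul, Int.cast_id]
            refine sum_congr rfl fun l _ => sum_congr rfl fun m _ => ?_
            ring
        _ = ∑ l, v l * ∑ i, ((∑ m, G l m * w i m) * w i k) := by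
            rw [sum_comm]
            refine sum_congr rfl fun l _ => ?_
            rw [mul_sum]
        _ = 8 * v k := by
            simp_rw [h3]
            simp [mul_comm]
  choose v hv using h1
  have h2 : Matrix.of w * (G * (Matrix.of v)ᵀ) = Matrix.of w := by
    ext i k
    have h3 := congrFun (hv k) i
    have h4 : bf G (v k) (w i) = w i k := h3
    rw [bf_comm hG.symm, bf_eqZ] at h4
    rw [Matrix.of_apply, ← h4]
    simp only [Matrix.mul_apply, Matrix.transpose_apply, Matrix.of_apply, dotProduct, mulVec]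
  have h3 : (8 : ℤ) • (G * (Matrix.of v)ᵀ) = (8 : ℤ) • (1 : Matrix (Fin r) (Fin r) ℤ) := by
    calc (8 : ℤ) • (G * (Matrix.of v)ᵀ)
        = ((8 : ℤ) • (1 : Matrix (Fin r) (Fin r) ℤ)) * (G * (Matrix.of v)ᵀ) := by
          rw [Matrix.smul_mul, Matrix.one_mul]
      _ = (G * (Matrix.of w)ᵀ) * (Matrix.of w * (G * (Matrix.of v)ᵀ)) := by
          rw [← mat2 hw, Matrix.mul_assoc]
      _ = (8 : ℤ) • (1 : Matrix (Fin r) (Fin r) ℤ) := by
          rw [h2, mat2 hw]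
  have h4 : G * (Matrix.of v)ᵀ = 1 := by
    ext i j
    have := congrFun (congrFun h3 i) j
    simp only [Matrix.smul_apply, smul_eq_mul] at this
    linarith
  have h5 : G.det * ((Matrix.of v)ᵀ).det = 1 := by
    rw [← Matrix.det_mul, h4, Matrix.det_one]
  have h6 := congrArg Matrix.det (mat1 hw)
  rw [Matrix.det_mul, Matrix.det_mul, Matrix.det_transpose, Matrix.det_smul, Matrix.det_one,
    mul_one] at h6
  rcases Int.isUnit_iff.1 (IsUnit.of_mul_eq_one _ h5) with h7 | h7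
  · exact h7
  · exfalso
    rw [h7] at h6
    have h8 : (0 : ℤ) < 8 ^ Fintype.card (Fin r) := by positivity
    nlinarith [sq_nonneg (Matrix.of w).det]

theorem job (hf : JobFrame) (hc : JobCode) : JobCaseA := by
  intro r G hG hC hu
  obtain ⟨hr, w, hw, hp⟩ := hf r G hG hC hu
  have hmem : ∀ v, amap G w v ∈ (amap G w).range := fun v => ⟨v, rfl⟩
  have H1 : ∀ a ∈ (amap G w).range, (16 : ℤ) ∣ ∑ i, a i ^ 2 := by
    rintro a ⟨v, rfl⟩
    have h1 := amap_inner hG.symm hw v v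
    obtain ⟨N, hN⟩ := even_bf hG.symm hG.even v
    refine ⟨N, ?_⟩
    simp only [pow_two]
    rw [h1, hN]
    ring
  have H2 : ∀ a ∈ (amap G w).range, ∑ i, a i ^ 2 ≠ 16 := by
    rintro a ⟨v, rfl⟩ h2
    have h1 := amap_inner hG.symm hw v v
    simp only [pow_two] at h2
    rw [h1] at h2
    exact hG.noroot v (by linarith)
  have H3 : ∀ a ∈ (amap G w).range, ∀ i j, 2 ∣ a i - a j := by
    rintro a ⟨v, rfl⟩ i j
    obtain ⟨s, hs⟩ := hp i j
    refine ⟨bf G v s, ?_⟩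
    show bf G v (w i) - bf G v (w j) = _
    rw [hs, two_smul, bf_add_right, bf_add_right]
    ring
  have H4 : ∀ i j : Fin r, i ≠ j → Pi.single i 4 + Pi.single j 4 ∈ (amap G w).range ∧
      Pi.single i 4 - Pi.single j 4 ∈ (amap G w).range := by
    intro i j hij
    obtain ⟨s, hs⟩ := hp i j
    have h1 := amap_half hw hs
    constructor
    · refine ⟨w j + s, ?_⟩
      rw [map_add, h1, amap_single hw]
      funext k
      simp only [Pi.add_apply, Pi.sub_apply, Pi.single_apply]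
      split_ifs <;> omega
    · exact ⟨s, h1⟩
  have H5 : ∀ i : Fin r, Pi.single i 8 ∈ (amap G w).range := fun i => ⟨w i, amap_single hw i⟩
  have H6 : ∀ x : Fin r → ℤ, ∃ a ∈ (amap G w).range, ∑ i, (x i - a i) ^ 2 ≤ 16 := by
    intro x
    obtain ⟨v, hv⟩ := cov_int hG.symm hw hC x
    exact ⟨_, hmem v, hv⟩
  rcases hc r (amap G w).range hr H1 H2 H3 H4 H5 H6 with ⟨ψ, h1, h2⟩ | ⟨h1, h2⟩
  · exact Or.inl (first_case hG.symm hw ψ h1 fun v => h2 _ (hmem v))
  · refine Or.inr ⟨h1, second_case hG.toPosD hw hp fun y h3 h4 => ?_⟩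
    exact h2 y h3 (by rintro a ⟨v, rfl⟩; exact h4 v)

end

end Pool.Agent.Y405.LE
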