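import Pool.Agent.Y813.LE.Stm

set_option autoImplicit false

/-!
# Frames of norm 8 vectors (FRAME)
-/

namespace Pool.Agent.Y405.LE

open Pool.Agent.Y813.RL (bf bf_add_left bf_add_right bf_sub_left bf_sub_right bf_smul_left
  bf_smul_right bf_neg_left bf_neg_right bf_zero_left bf_zero_right bf_comm bf_intCast)
open Pool.Agent.Y813.LE

/-- even Gram matrices give even norms -/
theorem even_bf {ι : Type*} [Fintype ι] [DecidableEq ι] {B : Matrix ι ι ℤ} (hB : B.IsSymm)
    (he : ∀ i, Even (B i i)) (v : ι → ℤ) : ∃ N : ℤ, bf B v v = 2 * N := by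
  let f : (ι → ℤ) →+ ZMod 2 :=
    { toFun := fun v => ((bf B v v : ℤ) : ZMod 2)
      map_zero' := by rw [bf_zero_left]; simp
      map_add' := by
        intro x y
        rw [bf_add_left, bf_add_right, bf_add_right, bf_comm hB y x]
        push_cast
        have : (2 : ZMod 2) = 0 := rfl
        linear_combination ((bf B x y : ℤ) : ZMod 2) * this }
  have hf : f = 0 := by
    apply AddMonoidHom.functions_ext
    intro i n
    have h1 : bf B (Pi.single i n) (Pi.single i n) = n * B i i * n := by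
      simp [bf, Pi.single_apply]
    have h2 : ((B i i : ℤ) : ZMod 2) = 0 := by
      have := (he i).two_dvd
      exact (ZMod.intCast_zmod_eq_zero_iff_dvd _ 2).2 (by exact_mod_cast this)
    show ((bf B (Pi.single i n) (Pi.single i n) : ℤ) : ZMod 2) = 0
    rw [h1]
    push_cast
    rw [h2]
    simp
  have := DFunLike.congr_fun hf v
  have h3 : ((bf B v v : ℤ) : ZMod 2) = 0 := this
  have h4 := (ZMod.intCast_zmod_eq_zero_iff_dvd _ 2).1 h3
  obtain ⟨N, hN⟩ := h4
  exact ⟨N, by exact_mod_cast hN⟩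

variable {r : ℕ} {G : Matrix (Fin r) (Fin r) ℤ}

theorem pos_int (hG : PosD G) {v : Fin r → ℤ} (hv : v ≠ 0) : 0 < bf G v v := by
  have h1 : (fun i => ((v i : ℤ) : ℝ)) ≠ 0 := by
    intro h
    apply hv
    funext i
    have := congrFun h i
    simpa using this
  have h2 := hG.pos _ h1
  rw [bf_intCast] at h2
  exact_mod_cast h2

theorem four_le (hG : ER G) {v : Fin r → ℤ} (hv : v ≠ 0) : 4 ≤ bf G v v := by
  have h1 := pos_int hG.toPosD hv
  obtain ⟨N, hN⟩ := even_bf hG.symm hG.even v
  have h2 := hG.noroot v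
  omega

/-- step (1) -/
theorem eight_le (hG : ER G) {u : Fin r → ℤ} (hu : bf G u u = 8) (v : Fin r → ℤ) :
    8 ≤ bf G (u - 2 • v) (u - 2 • v) := by
  by_cases h0 : v = 0
  · subst h0
    simp [hu]
  by_cases h1 : u - v = 0
  · have : u = v := sub_eq_zero.mp h1
    subst this
    have h2 : u - 2 • u = -u := by
      rw [two_smul]; abel
    rw [h2, bf_neg_left, bf_neg_right, hu]
    norm_num
  have h2 := four_le hG h0
  have h3 := four_le hG h1
  have h4 : (2 • v : Fin r → ℤ) = v + v := two_smul _ _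
  rw [h4]
  simp only [bf_sub_left, bf_sub_right, bf_add_left, bf_add_right, bf_comm hG.symm v u] at *
  linarith

/-- step (3) -/
theorem orth (hG : ER G) {w w' s : Fin r → ℤ} (hw : bf G w w = 8) (hw' : bf G w' w' = 8)
    (hs : w = w' + 2 • s) (h1 : w ≠ w') (h2 : w ≠ -w') : bf G w w' = 0 := by
  have hs0 : s ≠ 0 := by
    rintro rfl
    apply h1
    rw [hs]
    simp
  have hs1 : w' + s ≠ 0 := by
    intro h
    apply h2
    have : s = -w' := by
      rw [← add_right_inj w', h]; abel
    rw [hs, this, two_smul]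
    abel
  have h3 := four_le hG hs0
  have h4 := four_le hG hs1
  have h5 : (2 • s : Fin r → ℤ) = s + s := two_smul _ _
  rw [h5] at hs
  subst hs
  simp only [bf_add_left, bf_add_right, bf_comm hG.symm s w'] at *
  linarith

theorem exists_perp {k : ℕ} (hk : k < r) (w : Fin k → Fin r → ℤ) :
    ∃ d : Fin r → ℝ, d ≠ 0 ∧ ∀ i, bf G d (fun j => (w i j : ℝ)) = 0 := by
  let f : (Fin r → ℝ) →ₗ[ℝ] (Fin k → ℝ) :=
    { toFun := fun d i => bf G d (fun j => (w i j : ℝ))
      map_add' := by
        intro x y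
        funext i
        exact bf_add_left _ _ _ _
      map_smul' := by
        intro c x
        funext i
        exact bf_smul_left _ _ _ _ }
  have h1 : LinearMap.ker f ≠ ⊥ := by
    apply LinearMap.ker_ne_bot_of_finrank_lt
    simpa using hk
  obtain ⟨d, hd, hd0⟩ := (Submodule.ne_bot_iff _).1 h1
  refine ⟨d, hd0, fun i => ?_⟩
  exact congrFun (LinearMap.mem_ker.1 hd) i

/-- step (2) -/
theorem exists_dir (h1 : JobHole1) (hG : ER G) (hC : Cov G) {u : Fin r → ℤ} (hu : bf G u u = 8)
    {d : Fin r → ℝ} (hd : d ≠ 0) :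
    ∃ w s : Fin r → ℤ, w = u + 2 • s ∧ bf G w w = 8 ∧ 0 < bf G d (fun i => (w i : ℝ)) := by
  have key : ∀ v : Fin r → ℤ, sd G (fun i => (u i : ℝ) / 2) v =
      ((bf G (u - 2 • v) (u - 2 • v) : ℤ) : ℝ) / 4 := by
    intro v
    have e : (fun i => (u i : ℝ) / 2 - (v i : ℝ)) =
        (1 / 2 : ℝ) • (fun i => (((u - 2 • v) i : ℤ) : ℝ)) := by
      funext i
      simp only [Pi.smul_apply, Pi.sub_apply, smul_eq_mul]
      push_cast
      simp
      ring
    unfold sd
    rw [e, bf_smul_left, bf_smul_right, bf_intCast]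
    ring
  obtain ⟨v, hv1, hv2⟩ := h1 r G hG.toPosD (fun i => (u i : ℝ) / 2) 2
    (by
      intro v
      rw [key]
      have := eight_le hG hu v
      have h3 : (8 : ℝ) ≤ ((bf G (u - 2 • v) (u - 2 • v) : ℤ) : ℝ) := by exact_mod_cast this
      linarith)
    hC d hd
  refine ⟨-(u - 2 • v), v - u, ?_, ?_, ?_⟩
  · funext i
    simp
    ring
  · rw [key] at hv1
    have h3 : ((bf G (u - 2 • v) (u - 2 • v) : ℤ) : ℝ) = 8 := by linarith
    rw [bf_neg_left, bf_neg_right, neg_neg]
    exact_mod_cast h3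
  · have e : (fun i => (((-(u - 2 • v)) i : ℤ) : ℝ)) =
        (2 : ℝ) • (fun i => (v i : ℝ) - (u i : ℝ) / 2) := by
      funext i
      simp only [Pi.smul_apply, Pi.neg_apply, Pi.sub_apply, smul_eq_mul]
      push_cast
      simp
      ring
    rw [e, bf_smul_right]
    linarith

theorem exists_family (h1 : JobHole1) (hG : ER G) (hC : Cov G) {u : Fin r → ℤ}
    (hu : bf G u u = 8) (k : ℕ) (hk : k ≤ r) :
    ∃ w : Fin k → Fin r → ℤ, (∀ i, bf G (w i) (w i) = 8) ∧ (∀ i, ∃ s : Fin r → ℤ,
      w i = u + 2 • s) ∧ ∀ i j, i ≠ j → bf G (w i) (w j) = 0 := by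
  induction k with
  | zero => exact ⟨fun i => i.elim0, fun i => i.elim0, fun i => i.elim0, fun i => i.elim0⟩
  | succ k ih =>
    obtain ⟨w, hw1, hw2, hw3⟩ := ih (by omega)
    obtain ⟨d, hd, hd2⟩ := exists_perp (G := G) (show k < r by omega) w
    obtain ⟨z, s, hz1, hz2, hz3⟩ := exists_dir h1 hG hC hu hd
    have hz : ∀ i, bf G z (w i) = 0 := by
      intro i
      obtain ⟨s', hs'⟩ := hw2 i
      refine orth (s := s - s') hG hz2 (hw1 i) ?_ ?_ ?_
      · rw [hz1, hs', smul_sub]
        abel
      · intro h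
        rw [h, hd2 i] at hz3
        exact lt_irrefl _ hz3
      · intro h
        have e : (fun j => ((z j : ℤ) : ℝ)) = -(fun j => ((w i j : ℤ) : ℝ)) := by
          funext j
          rw [h]
          simp
        rw [e, bf_neg_right, hd2 i] at hz3
        simp at hz3
    refine ⟨Fin.cons z w, ?_, ?_, ?_⟩
    · intro i
      refine Fin.cases ?_ (fun i => ?_) i
      · simpa using hz2
      · simpa using hw1 i
    · intro i
      refine Fin.cases ?_ (fun i => ?_) i
      · exact ⟨s, by simpa using hz1⟩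
      · simpa using hw2 i
    · intro i j
      refine Fin.cases ?_ (fun i => ?_) i
      · refine Fin.cases ?_ (fun j => ?_) j
        · intro h; exact absurd rfl h
        · intro _
          simpa using hz j
      · refine Fin.cases ?_ (fun j => ?_) j
        · intro _
          simp only [Fin.cons_succ, Fin.cons_zero]
          rw [bf_comm hG.symm]
          exact hz i
        · intro h
          simp only [Fin.cons_succ]
          exact hw3 i j (fun e => h (by rw [e]))

theorem frame (h1 : JobHole1) : JobFrame := by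
  intro r G hG hC ⟨u, hu⟩
  constructor
  · rcases Nat.eq_zero_or_pos r with h | h
    · subst h
      simp [bf] at hu
    · exact h
  · obtain ⟨w, hw1, hw2, hw3⟩ := exists_family h1 hG hC hu r le_rfl
    refine ⟨w, fun i j => ?_, fun i j => ?_⟩
    · split_ifs with h
      · rw [h]; exact hw1 j
      · exact hw3 i j h
    · obtain ⟨s, hs⟩ := hw2 i
      obtain ⟨s', hs'⟩ := hw2 j
      refine ⟨s - s', ?_⟩
      rw [hs, hs', smul_sub]
      abel

end Pool.Agent.Y405.LE
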